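import Pool.Agent.Lib.MP_fb3619_al.Iface

/-! Module LINA: reduction modulo `N` is injective on torsion (Minkowski). -/

universe u

namespace Pool.Agent.FourGp.H65

namespace LinaAux

theorem binom {A : Type u} [Ring A] (x : A) (n : ℕ) :
    ∃ q : A, (1 + (3 : ℕ) • x) ^ n = 1 + (3 * n) • x + (9 : ℕ) • (x * x * q) := by
  induction n with
  | zero => exact ⟨0, by simp⟩
  | succ n ih =>
    obtain ⟨q, hq⟩ := ih
    refine ⟨q + n • (1 : A) + (3 : ℕ) • (q * x), ?_⟩
    rw [pow_succ, hq]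
    simp only [mul_add, add_mul, mul_one, one_mul, smul_mul_assoc, mul_smul_comm, smul_add,
      mul_assoc]
    module

theorem cube {A : Type u} [Ring A] (x : A) :
    (1 + (3 : ℕ) • x) ^ 3 = 1 + (9 : ℕ) • (x + (3 : ℕ) • (x * x) + (3 : ℕ) • (x * x * x)) := by
  rw [pow_succ, pow_succ, pow_one]
  simp only [mul_add, add_mul, mul_one, one_mul, smul_mul_assoc, mul_smul_comm, smul_add,
    mul_assoc]
  module

theorem iter {A : Type u} [Ring A] (x w : A) (c : ℤ) (h : c • x = (3 : ℤ) • (x * w)) (m : ℕ) :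
    c ^ m • x = (3 : ℤ) ^ m • (x * w ^ m) := by
  induction m with
  | zero => simp
  | succ m ih =>
    rw [pow_succ, mul_comm, mul_smul, ih, smul_comm, ← smul_mul_assoc, h, pow_succ, mul_smul]
    congr 1
    rw [smul_mul_assoc, mul_assoc, ← pow_succ']

variable {S : Type u} [CommRing S]

theorem core (n0 : ℕ) (hT : ∀ s : S, (∃ n : ℕ, 0 < n ∧ n • s = 0) → n0 • s = 0) (h0 : 0 < n0)
    (hK : ∀ s : S, (∀ m : ℕ, ∃ t : S, s = (3 : ℤ) ^ m • t) → ∃ n : ℕ, 0 < n ∧ n • s = 0)
    (y w : Matrix (Fin 3) (Fin 3) S) (c : ℤ) (hc : IsCoprime c 3)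
    (h : c • (n0 • y) = (3 : ℤ) • ((n0 • y) * w)) : n0 • y = 0 := by
  ext i j
  rw [Matrix.smul_apply, Matrix.zero_apply]
  obtain ⟨n, hn, hn'⟩ := hK (n0 • y i j) fun m => by
    obtain ⟨a, b, hab⟩ := hc.pow (m := m) (n := m)
    refine ⟨a • ((n0 • y) * w ^ m) i j + b • (n0 • y i j), ?_⟩
    have e := congrFun (congrFun (iter _ _ _ h m) i) j
    rw [Matrix.smul_apply, Matrix.smul_apply, Matrix.smul_apply] at e
    calc n0 • y i j = (a * c ^ m + b * 3 ^ m) • (n0 • y i j) := by rw [hab, one_smul]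
      _ = a • c ^ m • (n0 • y i j) + (3 : ℤ) ^ m • b • (n0 • y i j) := by
          rw [add_smul, mul_smul, mul_comm b, mul_smul]
      _ = _ := by rw [e, smul_add, smul_comm]
  exact hT _ ⟨n * n0, Nat.mul_pos hn h0, by rw [mul_smul]; exact hn'⟩

theorem tf (n0 : ℕ) (hT : ∀ s : S, (∃ n : ℕ, 0 < n ∧ n • s = 0) → n0 • s = 0) (h0 : 0 < n0)
    (n : ℕ) (hn : 0 < n) (z : Matrix (Fin 3) (Fin 3) S) (h : n • (n0 • z) = 0) : n0 • z = 0 := by
  ext i j
  rw [Matrix.smul_apply, Matrix.zero_apply]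
  have e := congrFun (congrFun h i) j
  rw [Matrix.smul_apply, Matrix.smul_apply, Matrix.zero_apply] at e
  exact hT _ ⟨n * n0, Nat.mul_pos hn h0, by rw [mul_smul]; exact e⟩

theorem prime_case (n0 : ℕ) (hT : ∀ s : S, (∃ n : ℕ, 0 < n ∧ n • s = 0) → n0 • s = 0)
    (h0 : 0 < n0)
    (hK : ∀ s : S, (∀ m : ℕ, ∃ t : S, s = (3 : ℤ) ^ m • t) → ∃ n : ℕ, 0 < n ∧ n • s = 0)
    (y : Matrix (Fin 3) (Fin 3) S) (p : ℕ) (hp : p.Prime)
    (h : (1 + (3 : ℕ) • (n0 • y)) ^ p = 1) : n0 • y = 0 := by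
  by_cases h3 : p = 3
  · subst h3
    rw [cube, add_eq_left] at h
    have e : n0 • y + (3 : ℕ) • (n0 • y * (n0 • y)) + (3 : ℕ) • (n0 • y * (n0 • y) * (n0 • y)) =
        n0 • (y + (3 : ℕ) • (y * (n0 • y)) + (3 : ℕ) • (y * (n0 • y) * (n0 • y))) := by
      simp only [smul_add, smul_mul_assoc]
      rw [smul_comm n0 3, smul_comm n0 3]
    rw [e] at h
    have h' := tf n0 hT h0 9 (by norm_num) _ h
    rw [← e] at h'
    refine core n0 hT h0 hK y (-(n0 • y) - (n0 • y) * (n0 • y)) 1 isCoprime_one_left ?_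
    rw [one_smul, mul_sub, mul_neg, ← mul_assoc]
    generalize n0 • y = x at h' ⊢
    calc x = x - (x + (3 : ℕ) • (x * x) + (3 : ℕ) • (x * x * x)) := by rw [h', sub_zero]
      _ = _ := by module
  · obtain ⟨q, hq⟩ := binom (n0 • y) p
    rw [hq, add_assoc, add_eq_left] at h
    have e : p • (n0 • y) + (3 : ℕ) • (n0 • y * (n0 • y) * q) =
        n0 • (p • y + (3 : ℕ) • (y * (n0 • y) * q)) := by
      simp only [smul_add, smul_mul_assoc]
      rw [smul_comm n0 3, smul_comm n0 p]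
    have e' : (3 * p) • n0 • y + (9 : ℕ) • (n0 • y * (n0 • y) * q) =
        (3 : ℕ) • (n0 • (p • y + (3 : ℕ) • (y * (n0 • y) * q))) := by
      rw [← e]
      module
    rw [e'] at h
    have h' := tf n0 hT h0 3 (by norm_num) _ h
    rw [← e] at h'
    refine core n0 hT h0 hK y (-((n0 • y) * q)) p ?_ ?_
    · have : Nat.Coprime p 3 := (Nat.coprime_primes hp Nat.prime_three).2 h3
      exact_mod_cast Nat.isCoprime_iff_coprime.2 this
    · rw [mul_neg, ← mul_assoc]
      generalize n0 • y = x at h' ⊢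
      calc (p : ℤ) • x = (p : ℤ) • x - (p • x + (3 : ℕ) • (x * x * q)) := by rw [h', sub_zero]
        _ = _ := by module

theorem all_case (n0 : ℕ) (hT : ∀ s : S, (∃ n : ℕ, 0 < n ∧ n • s = 0) → n0 • s = 0)
    (h0 : 0 < n0)
    (hK : ∀ s : S, (∀ m : ℕ, ∃ t : S, s = (3 : ℤ) ^ m • t) → ∃ n : ℕ, 0 < n ∧ n • s = 0)
    (n : ℕ) : ∀ y : Matrix (Fin 3) (Fin 3) S, n ≠ 0 →
    (1 + (3 : ℕ) • (n0 • y)) ^ n = 1 → n0 • y = 0 := by
  induction n using induction_on_primes with
  | zero => intro y hn; exact absurd rfl hn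
  | one =>
    intro y _ h
    rw [pow_one, add_eq_left] at h
    exact tf n0 hT h0 3 (by norm_num) _ h
  | prime_mul p a hp ih =>
    intro y hn h
    have ha : a ≠ 0 := by rintro rfl; simp at hn
    obtain ⟨q, hq⟩ := binom (n0 • y) a
    have e : (1 + (3 : ℕ) • (n0 • y)) ^ a =
        1 + (3 : ℕ) • (n0 • (a • y + (3 : ℕ) • (y * (n0 • y) * q))) := by
      rw [hq]
      simp only [smul_add, smul_mul_assoc]
      module
    rw [mul_comm, pow_mul, e] at h
    have h1 := prime_case n0 hT h0 hK _ p hp h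
    rw [h1, smul_zero, add_zero] at e
    exact ih y ha e

section arith

theorem exists_tors (hS : ∃ v : S, 2 * v = 1)
    (hF : ∃ F : Finset S, ∀ s : S, ∃ k : ℕ, 2 ^ k * s ∈ Submodule.span ℤ (F : Set S)) :
    (∃ n0 : ℕ, Odd n0 ∧ ∀ s : S, (∃ n : ℕ, 0 < n ∧ n • s = 0) → n0 • s = 0) ∧
    (∀ s : S, (∀ m : ℕ, ∃ t : S, s = (3 : ℤ) ^ m • t) → ∃ n : ℕ, 0 < n ∧ n • s = 0) := by
  obtain ⟨v, hv⟩ := hS
  obtain ⟨F, hF⟩ := hF
  have hu : IsUnit (Int.castRingHom S 2) := by
    rw [isUnit_iff_exists_inv]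
    exact ⟨v, by simpa using hv⟩
  let f : Localization.Away (2 : ℤ) →+* S := IsLocalization.Away.lift (2 : ℤ) hu
  let _ : Algebra (Localization.Away (2 : ℤ)) S := f.toAlgebra
  have hf : ∀ (a : ℤ) (s : S), algebraMap ℤ (Localization.Away (2 : ℤ)) a • s = a • s := by
    intro a s
    rw [Algebra.smul_def]
    change f (algebraMap ℤ _ a) * s = _
    rw [IsLocalization.Away.lift_eq]
    simp
  have : IsNoetherianRing (Localization.Away (2 : ℤ)) :=
    IsLocalization.isNoetherianRing (Submonoid.powers (2 : ℤ)) _ inferInstance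
  have : Module.Finite (Localization.Away (2 : ℤ)) S := by
    refine ⟨⟨F, ?_⟩⟩
    rw [eq_top_iff]
    rintro s -
    obtain ⟨k, hk⟩ := hF s
    have h1 : 2 ^ k * s ∈ Submodule.span (Localization.Away (2 : ℤ)) (F : Set S) := by
      refine Submodule.span_induction (p := fun x _ => x ∈ Submodule.span
        (Localization.Away (2 : ℤ)) (F : Set S)) ?_ ?_ ?_ ?_ hk
      · exact fun x hx => Submodule.subset_span hx
      · exact Submodule.zero_mem _
      · exact fun x y _ _ hx hy => Submodule.add_mem _ hx hy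
      · intro a x _ hx
        rw [← hf]
        exact Submodule.smul_mem _ _ hx
    obtain ⟨w, hw⟩ : ∃ w : Localization.Away (2 : ℤ), algebraMap ℤ _ 2 * w = 1 :=
      isUnit_iff_exists_inv.1 (IsLocalization.Away.algebraMap_isUnit (2 : ℤ))
    have h2 : f w = v := by
      have : f (algebraMap ℤ _ 2 * w) = 1 := by rw [hw, map_one]
      rw [map_mul, IsLocalization.Away.lift_eq] at this
      calc f w = (2 * v) * f w := by rw [hv, one_mul]
        _ = v * ((Int.castRingHom S) 2 * f w) := by simp; ring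
        _ = v := by rw [this, mul_one]
    have h3 : s = w ^ k • (2 ^ k * s) := by
      rw [Algebra.smul_def]
      change s = f (w ^ k) * _
      rw [map_pow, h2, ← mul_assoc, ← mul_pow, mul_comm v, hv, one_pow, one_mul]
    rw [h3]
    exact Submodule.smul_mem _ _ h1
  constructor
  · let T : Submodule (Localization.Away (2 : ℤ)) S :=
      { carrier := {s | ∃ n : ℕ, 0 < n ∧ n • s = 0}
        add_mem' := by
          rintro a b ⟨n, hn, hn'⟩ ⟨m, hm, hm'⟩
          refine ⟨n * m, Nat.mul_pos hn hm, ?_⟩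
          rw [smul_add, mul_smul n m b, hm', smul_zero, mul_comm, mul_smul, hn', smul_zero,
            add_zero]
        zero_mem' := ⟨1, one_pos, smul_zero _⟩
        smul_mem' := by
          rintro c a ⟨n, hn, hn'⟩
          exact ⟨n, hn, by rw [smul_comm, hn', smul_zero]⟩ }
    obtain ⟨G, hG⟩ : T.FG := IsNoetherian.noetherian T
    have h1 : ∀ s ∈ G, ∃ n : ℕ, 0 < n ∧ n • s = 0 := by
      intro s hs
      have : s ∈ T := hG ▸ Submodule.subset_span hs
      exact this
    choose! c hc using h1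
    have hpos : (∏ s ∈ G, c s) ≠ 0 := Finset.prod_ne_zero_iff.2 fun s hs => (hc s hs).1.ne'
    have hkill : ∀ s ∈ T, (∏ s ∈ G, c s) • s = 0 := by
      intro s hs
      rw [← hG] at hs
      refine Submodule.span_induction (p := fun x _ => (∏ s ∈ G, c s) • x = 0) ?_ ?_ ?_ ?_ hs
      · intro x hx
        obtain ⟨d, hd⟩ := Finset.dvd_prod_of_mem c hx
        rw [hd, mul_comm, mul_smul, (hc x hx).2, smul_zero]
      · exact smul_zero _
      · intro x y _ _ hx hy
        rw [smul_add, hx, hy, add_zero]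
      · intro a x _ hx
        rw [smul_comm, hx, smul_zero]
    obtain ⟨k, m, hm, hkm⟩ := Nat.exists_eq_two_pow_mul_odd hpos
    refine ⟨m, hm, fun s hs => ?_⟩
    have h2 := hkill s hs
    rw [hkm, mul_smul] at h2
    have h3 : (2 : S) ^ k * (m • s) = 0 := by
      rw [← h2, nsmul_eq_mul (2 ^ k)]
      push_cast
      rfl
    calc m • s = v ^ k * (2 ^ k * (m • s)) := by
          rw [← mul_assoc, ← mul_pow, mul_comm v, hv, one_pow, one_mul]
      _ = 0 := by rw [h3, mul_zero]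
  · intro s hs
    have h1 : s ∈ (⨅ i : ℕ, (Ideal.span {algebraMap ℤ (Localization.Away (2 : ℤ)) 3}) ^ i •
        (⊤ : Submodule (Localization.Away (2 : ℤ)) S)) := by
      rw [Submodule.mem_iInf]
      intro m
      obtain ⟨t, ht⟩ := hs m
      rw [ht, ← hf, map_pow]
      refine Submodule.smul_mem_smul ?_ Submodule.mem_top
      exact Ideal.pow_mem_pow (Ideal.mem_span_singleton_self _) m
    rw [Ideal.mem_iInf_smul_pow_eq_bot_iff] at h1
    obtain ⟨⟨r, hr⟩, hr'⟩ := h1
    obtain ⟨z, hz⟩ := Ideal.mem_span_singleton.1 hr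
    obtain ⟨n, a, ha⟩ := IsLocalization.Away.surj (2 : ℤ) z
    simp only at hr'
    have hf' : ∀ a : ℤ, f (algebraMap ℤ (Localization.Away (2 : ℤ)) a) = (a : S) := by
      intro a
      rw [IsLocalization.Away.lift_eq]
      simp
    have e1 : f z * 2 ^ n = a := by
      have := congrArg f ha
      rw [map_mul, map_pow, hf', hf'] at this
      exact_mod_cast this
    have e2 : f r = 3 * f z := by
      rw [hz, map_mul, hf']
      norm_num
    have e3 : f r * s = s := hr'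
    have h2 : (2 ^ n - 3 * a : ℤ) • s = 0 := by
      rw [zsmul_eq_mul]
      push_cast
      linear_combination 3 * s * e1 + 2 ^ n * s * e2 - 2 ^ n * e3
    refine ⟨(2 ^ n - 3 * a : ℤ).natAbs, ?_, ?_⟩
    · rw [Int.natAbs_pos]
      intro h
      have h3 : (3 : ℤ) ∣ 2 ^ n := ⟨a, by linarith⟩
      have h4 : (3 : ℤ) ∣ 2 := Int.prime_three.dvd_of_dvd_pow h3
      norm_num at h4
    · rcases Int.natAbs_eq (2 ^ n - 3 * a : ℤ) with h | h
      · rw [h] at h2
        rw [← natCast_zsmul]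
        exact h2
      · rw [h, neg_smul, neg_eq_zero] at h2
        rw [← natCast_zsmul]
        exact h2

theorem quot_finite (N : ℕ) (hN : Odd N)
    (hF : ∃ F : Finset S, ∀ s : S, ∃ k : ℕ, 2 ^ k * s ∈ Submodule.span ℤ (F : Set S)) :
    Finite (S ⧸ Ideal.span {(N : S)}) := by
  obtain ⟨F, hF⟩ := hF
  have hN0 : (Ideal.Quotient.mk (Ideal.span {(N : S)})) N = 0 :=
    Ideal.Quotient.eq_zero_iff_mem.2 (Ideal.mem_span_singleton_self _)
  have key : ∀ s : S, ∃ t ∈ Submodule.span ℤ (F : Set S),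
      Ideal.Quotient.mk (Ideal.span {(N : S)}) s = Ideal.Quotient.mk _ t := by
    intro s
    obtain ⟨k, hk⟩ := hF s
    have hco : IsCoprime ((2 : ℤ) ^ k) (N : ℤ) := by
      apply IsCoprime.pow_left
      have : Nat.Coprime 2 N := Nat.coprime_two_left.2 hN
      exact_mod_cast Nat.isCoprime_iff_coprime.2 this
    obtain ⟨a, b, hab⟩ := hco
    refine ⟨a • (2 ^ k * s), Submodule.smul_mem _ _ hk, ?_⟩
    have h1 : s = a • (2 ^ k * s) + b * N * s := by
      have : ((a * 2 ^ k + b * N : ℤ) : S) = 1 := by rw [hab]; simp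
      push_cast at this
      calc s = (a * 2 ^ k + b * N) * s := by rw [this, one_mul]
        _ = _ := by rw [zsmul_eq_mul]; ring
    rw [h1, map_add, map_mul, map_mul, hN0, mul_zero, zero_mul, add_zero, ← h1]
  have : Module.Finite ℤ (S ⧸ Ideal.span {(N : S)}) := by
    let g : S →ₗ[ℤ] (S ⧸ Ideal.span {(N : S)}) :=
      (Ideal.Quotient.mk (Ideal.span {(N : S)})).toAddMonoidHom.toIntLinearMap
    have : (⊤ : Submodule ℤ (S ⧸ Ideal.span {(N : S)})) =
        Submodule.map g (Submodule.span ℤ (F : Set S)) := by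
      refine (eq_top_iff.2 ?_).symm
      rintro q -
      obtain ⟨s, rfl⟩ := Ideal.Quotient.mk_surjective q
      obtain ⟨t, ht, ht'⟩ := key s
      exact ⟨t, ht, ht'.symm⟩
    refine ⟨?_⟩
    rw [this]
    exact Submodule.FG.map _ ⟨F, rfl⟩
  refine Module.finite_of_fg_torsion _ ?_
  intro q
  refine ⟨⟨(N : ℤ), ?_⟩, ?_⟩
  · rw [mem_nonZeroDivisors_iff_ne_zero]
    rintro h
    have : N = 0 := by exact_mod_cast h
    subst this
    simp at hN
  · obtain ⟨s, rfl⟩ := Ideal.Quotient.mk_surjective q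
    change (N : ℤ) • (Ideal.Quotient.mk (Ideal.span {(N : S)}) s) = 0
    rw [zsmul_eq_mul]
    push_cast
    rw [map_natCast] at hN0
    rw [hN0, zero_mul]

end arith

end LinaAux

theorem lina : LinaS.{u} := by
  intro S _ hS hF
  obtain ⟨⟨n0, hodd, hT⟩, hK⟩ := LinaAux.exists_tors hS hF
  have h0 : 0 < n0 := hodd.pos
  refine ⟨3 * n0, LinaAux.quot_finite _ ((by decide : Odd 3).mul hodd) hF, ?_⟩
  rintro g ⟨n, hn, hgn⟩ hg
  choose y hy using hg
  have e : g.1 = 1 + (3 : ℕ) • (n0 • Matrix.of y) := by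
    ext i j
    rw [Matrix.add_apply, Matrix.smul_apply, Matrix.smul_apply, Matrix.of_apply]
    rw [← sub_eq_iff_eq_add', hy i j]
    simp only [nsmul_eq_mul]
    push_cast
    ring
  have h1 := LinaAux.all_case n0 hT h0 hK n (Matrix.of y) hn.ne' (by
    rw [← e, ← Units.val_pow_eq_pow_val, hgn, Units.val_one])
  apply Units.ext
  rw [e, h1, smul_zero, add_zero, Units.val_one]

end Pool.Agent.FourGp.H65
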