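import Pool.Agent.Lib.MP_fb3619_al.Iface

/-! Module LIN: finitely generated periodic groups of matrices with integral entries are finite. -/

universe u

namespace Pool.Agent.FourGp.H65

namespace LinAux

/-- Elements of `R'` some `2 ^ k` multiple of which lies in `B`. -/
def satur {R' : Type u} [CommRing R'] (B : Subalgebra ℤ R') : Subring R' where
  carrier := {r | ∃ k : ℕ, 2 ^ k * r ∈ B}
  mul_mem' := by
    rintro a b ⟨k, hk⟩ ⟨l, hl⟩
    refine ⟨k + l, ?_⟩
    have : (2 : R') ^ (k + l) * (a * b) = (2 ^ k * a) * (2 ^ l * b) := by ring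
    rw [this]
    exact B.mul_mem hk hl
  one_mem' := ⟨0, by simp [B.one_mem]⟩
  add_mem' := by
    rintro a b ⟨k, hk⟩ ⟨l, hl⟩
    refine ⟨k + l, ?_⟩
    have : (2 : R') ^ (k + l) * (a + b) = 2 ^ l * (2 ^ k * a) + 2 ^ k * (2 ^ l * b) := by ring
    rw [this]
    have h2 : ∀ m : ℕ, (2 : R') ^ m ∈ B := fun m => B.pow_mem (by
      have : (2 : R') = 1 + 1 := by norm_num
      rw [this]
      exact B.add_mem B.one_mem B.one_mem) m
    exact B.add_mem (B.mul_mem (h2 _) hk) (B.mul_mem (h2 _) hl)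
  zero_mem' := ⟨0, by simp [B.zero_mem]⟩
  neg_mem' := by
    rintro a ⟨k, hk⟩
    refine ⟨k, ?_⟩
    rw [mul_neg]
    exact B.neg_mem hk

theorem mem_satur {R' : Type u} [CommRing R'] {B : Subalgebra ℤ R'} {r : R'} :
    r ∈ satur B ↔ ∃ k : ℕ, 2 ^ k * r ∈ B := Iff.rfl

theorem span_cond {R' : Type u} [CommRing R'] (B : Subalgebra ℤ R')
    (hB : (Subalgebra.toSubmodule B).FG) :
    ∃ F : Finset (satur B), ∀ s : satur B, ∃ k : ℕ,
      2 ^ k * s ∈ Submodule.span ℤ (F : Set (satur B)) := by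
  classical
  obtain ⟨G, hG⟩ := hB
  have hGB : ∀ r ∈ G, r ∈ satur B := by
    intro r hr
    refine ⟨0, ?_⟩
    rw [pow_zero, one_mul, ← Subalgebra.mem_toSubmodule, ← hG]
    exact Submodule.subset_span hr
  refine ⟨G.subtype (· ∈ satur B), ?_⟩
  rintro ⟨s, k, hk⟩
  refine ⟨k, ?_⟩
  let g : satur B →ₗ[ℤ] R' := (satur B).subtype.toAddMonoidHom.toIntLinearMap
  have h1 : Submodule.map g (Submodule.span ℤ ((G.subtype (· ∈ satur B) : Finset (satur B)) :
      Set (satur B))) = Subalgebra.toSubmodule B := by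
    rw [Submodule.map_span, ← hG]
    congr 1
    ext r
    constructor
    · rintro ⟨x, hx, rfl⟩
      exact (Finset.mem_subtype.1 hx)
    · intro hr
      exact ⟨⟨r, hGB r hr⟩, Finset.mem_subtype.2 hr, rfl⟩
  have h2 : 2 ^ k * s ∈ Submodule.map g (Submodule.span ℤ
      ((G.subtype (· ∈ satur B) : Finset (satur B)) : Set (satur B))) := by
    rw [h1]
    exact hk
  obtain ⟨t, ht, ht'⟩ := h2
  have h3 : t = 2 ^ k * (⟨s, k, hk⟩ : satur B) := by
    apply Subtype.ext
    change t.1 = 2 ^ k * s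
    exact ht'
  rw [← h3]
  exact ht

theorem map_injective {A B : Type u} [CommRing A] [CommRing B] (f : A →+* B)
    (hf : Function.Injective f) :
    Function.Injective (Matrix.GeneralLinearGroup.map (n := Fin 3) f) := by
  intro g h e
  apply Units.ext
  ext i j
  apply hf
  have := congrArg (fun x : GL (Fin 3) B => x.1 i j) e
  exact this

theorem exists_ext (R : Type u) [CommRing R] (h2 : ∀ r : R, r + r = 0 → r = 0) :
    ∃ (R' : Type u) (_ : CommRing R') (ι : R →+* R'), Function.Injective ι ∧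
      ∃ v : R', 2 * v = 1 := by
  refine ⟨Localization.Away (2 : R), inferInstance, algebraMap R _, ?_, ?_⟩
  · refine IsLocalization.injective (M := Submonoid.powers (2 : R)) _ ?_
    rintro _ ⟨n, rfl⟩
    refine pow_mem ?_ n
    rw [mem_nonZeroDivisors_iff_right]
    intro x hx
    apply h2
    rw [← hx]
    ring
  · obtain ⟨v, hv⟩ := isUnit_iff_exists_inv.1
      (IsLocalization.Away.algebraMap_isUnit (S := Localization.Away (2 : R)) (2 : R))
    refine ⟨v, ?_⟩
    rw [← hv, map_ofNat]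

end LinAux

theorem lin (hA : LinaS.{u}) : LinS.{u} := by
  intro R _ h2 F hF hint hper
  classical
  obtain ⟨R', _, ι, hι, v, hv⟩ := LinAux.exists_ext R h2
  let E : Set R' := ⋃ g ∈ F, ⋃ i : Fin 3, ⋃ j : Fin 3, {ι (2 * g.1 i j), ι (2 * (g⁻¹).1 i j)}
  have hE : E.Finite := by
    refine Set.Finite.biUnion hF fun g _ => ?_
    refine Set.finite_iUnion fun i => Set.finite_iUnion fun j => ?_
    exact Set.toFinite _
  have hEi : ∀ x ∈ E, IsIntegral ℤ x := by
    intro x hx
    simp only [E, Set.mem_iUnion, Set.mem_insert_iff, Set.mem_singleton_iff] at hx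
    obtain ⟨g, hg, i, j, rfl | rfl⟩ := hx
    · exact (hint g hg i j).1.map ι.toIntAlgHom
    · exact (hint g hg i j).2.map ι.toIntAlgHom
  let B : Subalgebra ℤ R' := Algebra.adjoin ℤ E
  have hB : (Subalgebra.toSubmodule B).FG := fg_adjoin_of_finite hE hEi
  let S : Subring R' := LinAux.satur B
  have hv' : v ∈ S := ⟨1, by rw [pow_one, hv]; exact B.one_mem⟩
  obtain ⟨N, hfin, hN⟩ := hA S ⟨⟨v, hv'⟩, Subtype.ext hv⟩ (LinAux.span_cond B hB)
  let Φ : GL (Fin 3) S →* GL (Fin 3) R' := Matrix.GeneralLinearGroup.map S.subtype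
  let Ψ : GL (Fin 3) R →* GL (Fin 3) R' := Matrix.GeneralLinearGroup.map ι
  have hΦ : Function.Injective Φ := LinAux.map_injective _ Subtype.val_injective
  have hΨ : Function.Injective Ψ := LinAux.map_injective _ hι
  have hmem : ∀ g ∈ F, Ψ g ∈ Φ.range := by
    intro g hg
    have m1 : ∀ i j, ι (g.1 i j) ∈ S := by
      intro i j
      refine ⟨1, ?_⟩
      rw [pow_one]
      have : ι (2 * g.1 i j) ∈ B := by
        apply Algebra.subset_adjoin
        simp only [E, Set.mem_iUnion, Set.mem_insert_iff, Set.mem_singleton_iff]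
        exact ⟨g, hg, i, j, Or.inl rfl⟩
      rw [map_mul, map_ofNat] at this
      exact this
    have m2 : ∀ i j, ι ((g⁻¹).1 i j) ∈ S := by
      intro i j
      refine ⟨1, ?_⟩
      rw [pow_one]
      have : ι (2 * (g⁻¹).1 i j) ∈ B := by
        apply Algebra.subset_adjoin
        simp only [E, Set.mem_iUnion, Set.mem_insert_iff, Set.mem_singleton_iff]
        exact ⟨g, hg, i, j, Or.inr rfl⟩
      rw [map_mul, map_ofNat] at this
      exact this
    have hmi : ∀ A A' : Matrix (Fin 3) (Fin 3) S, A.map S.subtype = A'.map S.subtype → A = A' := by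
      intro A A' h
      ext i j
      have := congrFun (congrFun h i) j
      exact this
    have e1 : (Matrix.of fun i j => (⟨ι (g.1 i j), m1 i j⟩ : S)).map S.subtype = g.1.map ι := by
      ext i j; rfl
    have e2 : (Matrix.of fun i j => (⟨ι ((g⁻¹).1 i j), m2 i j⟩ : S)).map S.subtype =
        (g⁻¹).1.map ι := by
      ext i j; rfl
    refine ⟨⟨Matrix.of fun i j => ⟨ι (g.1 i j), m1 i j⟩, Matrix.of fun i j =>
      ⟨ι ((g⁻¹).1 i j), m2 i j⟩, ?_, ?_⟩, ?_⟩
    · apply hmi
      rw [Matrix.map_mul, e1, e2, ← Matrix.map_mul, ← Units.val_mul, mul_inv_cancel]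
      rw [Units.val_one, Matrix.map_one _ (map_zero _) (map_one _),
        Matrix.map_one _ (map_zero _) (map_one _)]
    · apply hmi
      rw [Matrix.map_mul, e1, e2, ← Matrix.map_mul, ← Units.val_mul, inv_mul_cancel]
      rw [Units.val_one, Matrix.map_one _ (map_zero _) (map_one _),
        Matrix.map_one _ (map_zero _) (map_one _)]
    · apply Units.ext
      ext i j
      rfl
  set H := Subgroup.closure F with hH
  have hrange : H.map Ψ ≤ Φ.range := by
    rw [Subgroup.map_le_iff_le_comap, hH, Subgroup.closure_le]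
    exact hmem
  have hord : ∀ g ∈ (H.map Ψ).comap Φ, ∃ n > 0, g ^ n = 1 := by
    rintro g ⟨h, hh, e⟩
    obtain ⟨n, hn, hn'⟩ := hper h hh
    refine ⟨n, hn, hΦ ?_⟩
    rw [map_pow, ← e, ← map_pow, hn', map_one, map_one]
  have hfinH' : Finite ((H.map Ψ).comap Φ) := by
    have : Finite (GL (Fin 3) (S ⧸ Ideal.span {(N : S)})) := inferInstance
    refine Finite.of_injective ((Matrix.GeneralLinearGroup.map (n := Fin 3)
      (Ideal.Quotient.mk (Ideal.span {(N : S)}))).comp ((H.map Ψ).comap Φ).subtype) ?_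
    rw [injective_iff_map_eq_one]
    rintro ⟨g, hg⟩ e
    apply Subtype.ext
    refine hN g (hord g hg) fun i j => ?_
    have e1 := congrArg (fun x : GL (Fin 3) (S ⧸ Ideal.span {(N : S)}) => x.1 i j) e
    change Ideal.Quotient.mk _ (g.1 i j) = (1 : Matrix (Fin 3) (Fin 3) _) i j at e1
    rw [← Ideal.mem_span_singleton, ← Ideal.Quotient.eq, e1]
    by_cases hij : i = j
    · subst hij; simp
    · simp [Matrix.one_apply_ne hij]
  have hfinM : Finite (H.map Ψ) := by
    rw [← Subgroup.map_comap_eq_self hrange]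
    exact Finite.of_surjective (fun x : (H.map Ψ).comap Φ => (⟨Φ x.1, Subgroup.mem_map_of_mem _ x.2⟩ :
      ((H.map Ψ).comap Φ).map Φ)) (by
        rintro ⟨_, x, hx, rfl⟩
        exact ⟨⟨x, hx⟩, rfl⟩)
  exact Finite.of_equiv _ (H.equivMapOfInjective Ψ hΨ).symm.toEquiv

end Pool.Agent.FourGp.H65
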